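import Pool.Agent.R517.Main

/-!
Cousin pairs of cyclic numbers between consecutive cubes: their number tends to infinity.
-/

set_option autoImplicit false

namespace Pool.Agent.Results.MP_2543de_nt.CousinGrowth

open Filter Topology

/-- `m` is a cyclic number: `m > 0` and `gcd (m, φ m) = 1`. -/
def Cyclic (m : ℕ) : Prop := 0 < m ∧ Nat.gcd m (Nat.totient m) = 1

/-- `C n` is the number of indices `j` for which the consecutive cyclic numbers `c_j < c_{j+1}` (here
`c_j` is `Nat.nth Cyclic j`, the enumeration starting at `j = 0`) satisfy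
`n ^ 3 < c_j < c_{j+1} < (n + 1) ^ 3` and `c_{j+1} - c_j = 4`. -/
noncomputable def C (n : ℕ) : ℕ := Set.ncard {j : ℕ | n ^ 3 < Nat.nth Cyclic j ∧
  Nat.nth Cyclic (j + 1) < (n + 1) ^ 3 ∧ Nat.nth Cyclic (j + 1) = Nat.nth Cyclic j + 4}

/-- the twin prime constant, the product of `1 - 1 / (p - 1) ^ 2` over the odd primes `p` -/
noncomputable def twinConst : ℝ := ∏' p : ℕ, if p.Prime ∧ p ≠ 2 then 1 - 1 / ((p : ℝ) - 1) ^ 2 else 1

theorem result :
    (∀ k : ℕ, ∃ N : ℕ, ∀ n ≥ N, k ≤ C n) ∧
    0 < twinConst ∧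
    Tendsto (fun n : ℕ => (C n : ℝ) * Real.log (Real.log (Real.log n)) ^ 2 / (n : ℝ) ^ 2) atTop
      (𝓝 (6 * Real.exp (-2 * Real.eulerMascheroniConstant) * twinConst)) := by
  have hT : C = Pool.Agent.R517.T 4 := rfl
  have hc : 6 * Real.exp (-2 * Real.eulerMascheroniConstant) * twinConst =
      3 * Pool.Agent.R517.kap 4 := by
    have h1 : twinConst = Pool.Agent.R517.twinC := rfl
    unfold Pool.Agent.R517.kap
    rw [h1, if_neg (by norm_num)]
    ring
  have hk := Pool.Agent.R517.kap_pos 4
  have has := Pool.Agent.R517.T_asymp' 4 (by norm_num)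
  rw [hT, hc]
  refine ⟨?_, Pool.Agent.R517.twinC_pos, has⟩
  -- the number tends to infinity
  have h1 : Tendsto (fun n : ℕ => (n : ℝ) / Real.log (Real.log (Real.log n)) ^ 2 * n) atTop atTop := by
    have e1 : ∀ᶠ n : ℕ in atTop, (n : ℝ) ≤
        (n : ℝ) / Real.log (Real.log (Real.log n)) ^ 2 * n := by
      have e5 := Pool.Agent.R517.log_pow_le 2 (by norm_num : (0 : ℝ) < 1)
      have e6 := tendsto_natCast_atTop_atTop (R := ℝ) |>.eventually e5
      filter_upwards [e6, Pool.Agent.R517.tendsto_log_nat.eventually_ge_atTop 1,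
        Pool.Agent.R517.tendsto_LL.eventually_ge_atTop 1,
        Pool.Agent.R517.tendsto_L3.eventually_ge_atTop 1, eventually_ge_atTop 1]
        with n f1 f2 f3 f4 f5
      have g1 : Real.log (Real.log n) ≤ Real.log n := by
        have := Real.log_le_sub_one_of_pos (show 0 < Real.log n by linarith)
        linarith
      have g2 : Real.log (Real.log (Real.log n)) ≤ Real.log (Real.log n) := by
        have f3' : 1 ≤ Real.log (Real.log n) := f3
        have := Real.log_le_sub_one_of_pos (show 0 < Real.log (Real.log n) by linarith)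
        linarith
      have f4' : 1 ≤ Real.log (Real.log (Real.log n)) := f4
      have g3 : Real.log (Real.log (Real.log n)) ^ 2 ≤ n := by
        have : Real.log (Real.log (Real.log n)) ^ 2 ≤ Real.log n ^ 2 := by
          have := g2.trans g1
          gcongr
        linarith
      have hn0 : (0 : ℝ) < n := by exact_mod_cast f5
      have hL0 : 0 < Real.log (Real.log (Real.log n)) ^ 2 := by positivity
      have g4 : 1 ≤ (n : ℝ) / Real.log (Real.log (Real.log n)) ^ 2 := by
        rw [le_div_iff₀ hL0]; linarith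
      nlinarith
    exact tendsto_atTop_mono' _ e1 tendsto_natCast_atTop_atTop
  have h2 := has.pos_mul_atTop (show 0 < 3 * Pool.Agent.R517.kap 4 by positivity) h1
  have h3 : Tendsto (fun n : ℕ => (Pool.Agent.R517.T 4 n : ℝ)) atTop atTop := by
    refine h2.congr' ?_
    filter_upwards [Pool.Agent.R517.tendsto_L3.eventually_gt_atTop 0, eventually_ge_atTop 1]
      with n f1 f2
    have f1' : 0 < Real.log (Real.log (Real.log n)) := f1
    have hn0 : (n : ℝ) ≠ 0 := by positivity
    field_simp
  intro k
  obtain ⟨N, hN⟩ := eventually_atTop.1 (h3.eventually_ge_atTop (k : ℝ))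
  exact ⟨N, fun n hn => by exact_mod_cast hN n hn⟩

end Pool.Agent.Results.MP_2543de_nt.CousinGrowth
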